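import Mathlib

/-!
# The prime-sum matrix: irreducibility of `χ_n` implies the alternating spectrum

Let `D = diag((-1)^i)`. As `i + j` is an odd prime only if `i`, `j` have different parities,
`D M(n) D = -M(n) + 2 E₁₁`. So the spectrum of `-M(n)` is that of the rank-one perturbation
`M(n) - 2 E₁₁` of `M(n)`, and the eigenvalues of `M(n)` and `-M(n)` interlace:
`λ₁ ≥ -λ_n ≥ λ₂ ≥ -λ_{n-1} ≥ ⋯`. The inequalities are strict, which is the alternating
spectrum, exactly when `r` and `-r` are never both eigenvalues; this is automatic if `χ_n` is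
irreducible over `ℚ`, since the trace of `M(n)` is `1`.
-/

set_option autoImplicit false

open Matrix Polynomial

namespace Pool.Agent.Results.MP_a21be6_nt.AlternatingSpectrum

variable {n : ℕ}

theorem exists_sorted (A : Matrix (Fin n) (Fin n) ℝ) (hA : A.IsHermitian) :
    ∃ (U : Matrix (Fin n) (Fin n) ℝ) (e : Fin n → ℝ), Antitone e ∧ U * Uᵀ = 1 ∧
      A = U * diagonal e * Uᵀ ∧ A.charpoly = ∏ i, (X - C (e i)) := by
  let U0 : Matrix (Fin n) (Fin n) ℝ := (hA.eigenvectorUnitary : Matrix (Fin n) (Fin n) ℝ)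
  let e0 : Fin n → ℝ := hA.eigenvalues
  let σ : Equiv.Perm (Fin n) := Tuple.sort (fun i => - e0 i)
  have hU0 : U0 * U0ᵀ = 1 := by
    have := Unitary.coe_mul_star_self hA.eigenvectorUnitary
    simpa [U0, star_eq_conjTranspose] using this
  have hA0 : A = U0 * diagonal e0 * U0ᵀ := by
    have := hA.spectral_theorem
    rw [Unitary.conjStarAlgAut_apply] at this
    simpa [U0, e0, star_eq_conjTranspose, Function.comp_def] using this
  refine ⟨U0.submatrix id σ, e0 ∘ σ, ?_, ?_, ?_, ?_⟩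
  · intro i j hij
    have := Tuple.monotone_sort (fun i => - e0 i) hij
    simp only [Function.comp_apply] at this ⊢
    linarith
  · rw [transpose_submatrix, submatrix_mul_equiv, hU0]
    simp
  · have : diagonal (e0 ∘ σ) = (diagonal e0).submatrix σ σ := by
      rw [submatrix_diagonal_equiv]
    rw [this, transpose_submatrix, submatrix_mul_equiv, submatrix_mul_equiv, ← hA0]
    simp
  · rw [hA.charpoly_eq]
    exact (Equiv.prod_comp σ (fun i => (X - C (e0 i)))).symm

theorem exists_vec {ι : Type*} [Fintype ι] (f : ι → ((Fin n → ℝ) →ₗ[ℝ] ℝ))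
    (h : Fintype.card ι < n) : ∃ x : Fin n → ℝ, x ≠ 0 ∧ ∀ k, f k x = 0 := by
  have h1 : LinearMap.ker (LinearMap.pi f) ≠ ⊥ := by
    apply LinearMap.ker_ne_bot_of_finrank_lt
    simpa using h
  obtain ⟨x, hx, hx0⟩ := (Submodule.ne_bot_iff _).1 h1
  refine ⟨x, hx0, fun k => ?_⟩
  have := congrFun (LinearMap.mem_ker.1 hx) k
  simpa using this

theorem quad {U : Matrix (Fin n) (Fin n) ℝ} {e : Fin n → ℝ} (x : Fin n → ℝ) :
    x ⬝ᵥ ((U * diagonal e * Uᵀ) *ᵥ x) = ∑ i, e i * ((Uᵀ *ᵥ x) i) ^ 2 := by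
  rw [← mulVec_mulVec, ← mulVec_mulVec, dotProduct_mulVec, ← mulVec_transpose]
  simp only [dotProduct, mulVec_diagonal]
  apply Finset.sum_congr rfl; intro i _; ring

theorem norm_eq {U : Matrix (Fin n) (Fin n) ℝ} (hU : U * Uᵀ = 1) (x : Fin n → ℝ) :
    x ⬝ᵥ x = ∑ i, ((Uᵀ *ᵥ x) i) ^ 2 := by
  have h := quad (U := U) (e := fun _ => 1) x
  have h1 : (U * diagonal (fun _ => (1 : ℝ)) * Uᵀ) = 1 := by
    rw [show diagonal (fun _ : Fin n => (1 : ℝ)) = 1 from diagonal_one, mul_one, hU]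
  rw [h1, one_mulVec] at h
  simpa using h


/-- the sign vector `(-1)^i` -/
def sgn (n : ℕ) : Fin n → ℝ := fun i => (-1) ^ (i : ℕ)

theorem sgn_sq (i : Fin n) : sgn n i * sgn n i = 1 := by
  simp only [sgn]
  rw [← pow_add, ← two_mul, pow_mul]; simp

theorem norm_sgn (x : Fin n → ℝ) :
    (diagonal (sgn n) *ᵥ x) ⬝ᵥ (diagonal (sgn n) *ᵥ x) = x ⬝ᵥ x := by
  simp only [dotProduct, mulVec_diagonal]
  apply Finset.sum_congr rfl; intro i _
  linear_combination (x i * x i) * sgn_sq i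

theorem dot_pos {x : Fin n → ℝ} (hx : x ≠ 0) : 0 < x ⬝ᵥ x := by
  obtain ⟨i, hi⟩ := Function.ne_iff.1 hx
  refine Finset.sum_pos' (fun j _ => mul_self_nonneg _) ⟨i, Finset.mem_univ _, ?_⟩
  exact mul_self_pos.2 hi

section ineq

variable {A U : Matrix (Fin n) (Fin n) ℝ} {e : Fin n → ℝ}

theorem ineq_one (he : Antitone e) (hU : U * Uᵀ = 1) (hA : A = U * diagonal e * Uᵀ)
    (hn : 0 < n)
    (hD : ∀ x : Fin n → ℝ, (diagonal (sgn n) *ᵥ x) ⬝ᵥ (A *ᵥ (diagonal (sgn n) *ᵥ x)) =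
      - (x ⬝ᵥ (A *ᵥ x)) + 2 * (x ⟨0, hn⟩) ^ 2) (i : Fin n) :
    0 ≤ e i + e (Fin.rev i) := by
  let f : (↥(Finset.Iio i) ⊕ ↥(Finset.Iio (Fin.rev i))) → ((Fin n → ℝ) →ₗ[ℝ] ℝ) :=
    Sum.elim (fun j => (LinearMap.proj (j : Fin n)) ∘ₗ (Uᵀ).mulVecLin)
      (fun j => (LinearMap.proj (j : Fin n)) ∘ₗ (Uᵀ * diagonal (sgn n)).mulVecLin)
  obtain ⟨x, hx0, hx⟩ := exists_vec f (by
    rw [Fintype.card_sum, Fintype.card_coe, Fintype.card_coe, Fin.card_Iio, Fin.card_Iio,
      Fin.val_rev]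
    have := i.isLt
    omega)
  have hy : ∀ j < i, (Uᵀ *ᵥ x) j = 0 := by
    intro j hj
    have := hx (Sum.inl ⟨j, Finset.mem_Iio.2 hj⟩)
    change (Uᵀ *ᵥ x) j = 0 at this
    exact this
  have hz : ∀ j < Fin.rev i, (Uᵀ *ᵥ (diagonal (sgn n) *ᵥ x)) j = 0 := by
    intro j hj
    have := hx (Sum.inr ⟨j, Finset.mem_Iio.2 hj⟩)
    change ((Uᵀ * diagonal (sgn n)) *ᵥ x) j = 0 at this
    rwa [← mulVec_mulVec] at this
  have h1 : x ⬝ᵥ (A *ᵥ x) ≤ e i * (x ⬝ᵥ x) := by
    rw [hA, quad, norm_eq hU, Finset.mul_sum]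
    apply Finset.sum_le_sum
    intro j _
    rcases lt_or_ge j i with h | h
    · rw [hy j h]; simp
    · exact mul_le_mul_of_nonneg_right (he h) (sq_nonneg _)
  have h2 : (diagonal (sgn n) *ᵥ x) ⬝ᵥ (A *ᵥ (diagonal (sgn n) *ᵥ x)) ≤
      e (Fin.rev i) * (x ⬝ᵥ x) := by
    rw [← norm_sgn x, hA, quad, norm_eq hU, Finset.mul_sum]
    apply Finset.sum_le_sum
    intro j _
    rcases lt_or_ge j (Fin.rev i) with h | h
    · rw [hz j h]; simp
    · exact mul_le_mul_of_nonneg_right (he h) (sq_nonneg _)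
  rw [hD] at h2
  have hpos : 0 < x ⬝ᵥ x := dot_pos hx0
  by_contra hneg
  push Not at hneg
  have : (e i + e (Fin.rev i)) * (x ⬝ᵥ x) < 0 := mul_neg_of_neg_of_pos hneg hpos
  nlinarith [sq_nonneg (x ⟨0, hn⟩)]

theorem ineq_two (he : Antitone e) (hU : U * Uᵀ = 1) (hA : A = U * diagonal e * Uᵀ)
    (hn : 0 < n)
    (hD : ∀ x : Fin n → ℝ, (diagonal (sgn n) *ᵥ x) ⬝ᵥ (A *ᵥ (diagonal (sgn n) *ᵥ x)) =
      - (x ⬝ᵥ (A *ᵥ x)) + 2 * (x ⟨0, hn⟩) ^ 2) (i k : Fin n) (hk : (k : ℕ) = (i : ℕ) + 1) :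
    e k + e (Fin.rev i) ≤ 0 := by
  let f : Option (↥(Finset.Ioi k) ⊕ ↥(Finset.Ioi (Fin.rev i))) → ((Fin n → ℝ) →ₗ[ℝ] ℝ) :=
    fun o => o.elim (LinearMap.proj ⟨0, hn⟩) (Sum.elim
      (fun j => (LinearMap.proj (j : Fin n)) ∘ₗ (Uᵀ).mulVecLin)
      (fun j => (LinearMap.proj (j : Fin n)) ∘ₗ (Uᵀ * diagonal (sgn n)).mulVecLin))
  obtain ⟨x, hx0, hx⟩ := exists_vec f (by
    rw [Fintype.card_option, Fintype.card_sum, Fintype.card_coe, Fintype.card_coe, Fin.card_Ioi,
      Fin.card_Ioi, Fin.val_rev]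
    have := i.isLt
    have := k.isLt
    omega)
  have hx00 : x ⟨0, hn⟩ = 0 := by simpa [f] using hx none
  have hy : ∀ j, k < j → (Uᵀ *ᵥ x) j = 0 := by
    intro j hj
    have := hx (some (Sum.inl ⟨j, Finset.mem_Ioi.2 hj⟩))
    change (Uᵀ *ᵥ x) j = 0 at this
    exact this
  have hz : ∀ j, Fin.rev i < j → (Uᵀ *ᵥ (diagonal (sgn n) *ᵥ x)) j = 0 := by
    intro j hj
    have := hx (some (Sum.inr ⟨j, Finset.mem_Ioi.2 hj⟩))
    change ((Uᵀ * diagonal (sgn n)) *ᵥ x) j = 0 at this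
    rwa [← mulVec_mulVec] at this
  have h1 : e k * (x ⬝ᵥ x) ≤ x ⬝ᵥ (A *ᵥ x) := by
    rw [hA, quad, norm_eq hU, Finset.mul_sum]
    apply Finset.sum_le_sum
    intro j _
    rcases lt_or_ge k j with h | h
    · rw [hy j h]; simp
    · exact mul_le_mul_of_nonneg_right (he h) (sq_nonneg _)
  have h2 : e (Fin.rev i) * (x ⬝ᵥ x) ≤
      (diagonal (sgn n) *ᵥ x) ⬝ᵥ (A *ᵥ (diagonal (sgn n) *ᵥ x)) := by
    rw [← norm_sgn x, hA, quad, norm_eq hU, Finset.mul_sum]
    apply Finset.sum_le_sum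
    intro j _
    rcases lt_or_ge (Fin.rev i) j with h | h
    · rw [hz j h]; simp
    · exact mul_le_mul_of_nonneg_right (he h) (sq_nonneg _)
  rw [hD, hx00] at h2
  have hpos : 0 < x ⬝ᵥ x := dot_pos hx0
  by_contra hneg
  push Not at hneg
  have : 0 < (e k + e (Fin.rev i)) * (x ⬝ᵥ x) := mul_pos hneg hpos
  nlinarith

end ineq


/-- The prime-sum matrix: the entry at `(i, j)`, `1 ≤ i, j ≤ n`, is `1` when `i + j` is prime
and `0` otherwise (rows and columns are indexed by `Fin n`, so `i` stands for `i + 1`). -/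
def M (n : ℕ) : Matrix (Fin n) (Fin n) ℤ :=
  Matrix.of fun i j => if Nat.Prime (((i : ℕ) + 1) + ((j : ℕ) + 1)) then 1 else 0

/-- The characteristic polynomial of `M n`. -/
noncomputable def chi (n : ℕ) : ℤ[X] := (M n).charpoly

/-- `M n` has alternating spectrum: `λ(1) > -λ(2) > λ(3) > ⋯ > (-1)^(n-1) λ(n) > 0`. -/
def AlternatingSpectrum (n : ℕ) : Prop :=
  ∃ lam : Fin n → ℝ, (chi n).map (Int.castRingHom ℝ) = ∏ k, (X - C (lam k)) ∧
    (∀ k : Fin n, 0 < (-1 : ℝ) ^ (k : ℕ) * lam k) ∧ (∀ i j : Fin n, i < j → |lam j| < |lam i|)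

theorem chi_map (n : ℕ) : (chi n).map (Int.castRingHom ℝ) =
    ((M n).map (Int.castRingHom ℝ)).charpoly := by
  rw [chi, charpoly_map]

theorem M_herm (n : ℕ) : ((M n).map (Int.castRingHom ℝ)).IsHermitian := by
  ext i j
  simp only [conjTranspose_apply, map_apply, M, of_apply, star_trivial]
  rw [show ((j : ℕ) + 1) + ((i : ℕ) + 1) = ((i : ℕ) + 1) + ((j : ℕ) + 1) by ring]

theorem M_sign (n : ℕ) (hn : 0 < n) (i j : Fin n) :
    sgn n i * (M n i j : ℝ) * sgn n j = - (M n i j : ℝ) +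
      if i = ⟨0, hn⟩ ∧ j = ⟨0, hn⟩ then 2 else 0 := by
  simp only [sgn, M, of_apply, Fin.ext_iff]
  by_cases h0 : (i : ℕ) = 0 ∧ (j : ℕ) = 0
  · rw [if_pos h0, h0.1, h0.2]
    norm_num
  · rw [if_neg h0, add_zero]
    by_cases hp : Nat.Prime (((i : ℕ) + 1) + ((j : ℕ) + 1))
    · rw [if_pos hp]
      have hodd : Odd ((i : ℕ) + (j : ℕ)) := by
        rcases hp.eq_two_or_odd' with h | h
        · omega
        · rcases h with ⟨c, hc⟩
          exact ⟨c - 1, by omega⟩
      have h1 : (-1 : ℝ) ^ (i : ℕ) * (-1) ^ (j : ℕ) = -1 := by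
        rw [← pow_add]; exact hodd.neg_one_pow
      push_cast
      linear_combination h1
    · rw [if_neg hp]; simp

theorem M_quad (n : ℕ) (hn : 0 < n) (x : Fin n → ℝ) :
    (diagonal (sgn n) *ᵥ x) ⬝ᵥ (((M n).map (Int.castRingHom ℝ)) *ᵥ (diagonal (sgn n) *ᵥ x)) =
      - (x ⬝ᵥ (((M n).map (Int.castRingHom ℝ)) *ᵥ x)) + 2 * (x ⟨0, hn⟩) ^ 2 := by
  have hz : diagonal (sgn n) *ᵥ x = fun i => sgn n i * x i := by
    ext i; rw [mulVec_diagonal]
  rw [hz]
  simp only [mulVec, dotProduct, map_apply, Int.coe_castRingHom]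
  have h1 : ∀ i : Fin n, sgn n i * x i * ∑ j, (M n i j : ℝ) * (sgn n j * x j) =
      - (x i * ∑ j, (M n i j : ℝ) * x j) +
        (if i = ⟨0, hn⟩ then 2 * (x ⟨0, hn⟩) ^ 2 else 0) := by
    intro i
    rw [Finset.mul_sum, Finset.mul_sum, ← Finset.sum_neg_distrib]
    have h2 : ∀ j : Fin n, sgn n i * x i * ((M n i j : ℝ) * (sgn n j * x j)) =
        -(x i * ((M n i j : ℝ) * x j)) +
          (if j = ⟨0, hn⟩ then (if i = ⟨0, hn⟩ then 2 * x i * x j else 0) else 0) := by
      intro j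
      have h3 := M_sign n hn i j
      by_cases hi : i = ⟨0, hn⟩
      · by_cases hj : j = ⟨0, hn⟩
        · rw [if_pos hj, if_pos hi]
          rw [if_pos ⟨hi, hj⟩] at h3
          linear_combination (x i * x j) * h3
        · rw [if_neg hj]
          rw [if_neg (by tauto)] at h3
          linear_combination (x i * x j) * h3
      · rw [if_neg (by tauto)] at h3
        rw [if_neg hi]
        simp only [ite_self]
        linear_combination (x i * x j) * h3
    rw [Finset.sum_congr rfl (fun j _ => h2 j), Finset.sum_add_distrib]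
    congr 1
    rw [Finset.sum_ite_eq' Finset.univ (⟨0, hn⟩ : Fin n)]
    simp only [Finset.mem_univ, if_true]
    by_cases hi : i = ⟨0, hn⟩
    · subst hi; simp; ring
    · simp [hi]
  rw [Finset.sum_congr rfl (fun i _ => h1 i), Finset.sum_add_distrib, Finset.sum_neg_distrib]
  congr 1
  simp


theorem alternating_of_no_pair (n : ℕ)
    (hnp : ¬ ∃ r : ℝ, ((chi n).map (Int.castRingHom ℝ)).IsRoot r ∧
      ((chi n).map (Int.castRingHom ℝ)).IsRoot (-r)) : AlternatingSpectrum n := by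
  rcases Nat.eq_zero_or_pos n with h0 | hn
  · subst h0
    refine ⟨fun i => i.elim0, ?_, fun k => k.elim0, fun i => i.elim0⟩
    simp [chi, charpoly, charmatrix]
  obtain ⟨U, e, he, hU, hA, hchar⟩ := exists_sorted _ (M_herm n)
  rw [← chi_map] at hchar
  have hroot : ∀ i, ((chi n).map (Int.castRingHom ℝ)).IsRoot (e i) := by
    intro i
    rw [hchar, IsRoot, eval_prod]
    exact Finset.prod_eq_zero (Finset.mem_univ i) (by simp)
  have hne : ∀ i j, e i + e j ≠ 0 := by
    intro i j h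
    apply hnp
    refine ⟨e i, hroot i, ?_⟩
    rw [show - e i = e j by linarith]
    exact hroot j
  have h1 : ∀ i : Fin n, 0 < e i + e (Fin.rev i) := fun i =>
    lt_of_le_of_ne (ineq_one he hU hA hn (M_quad n hn) i) (Ne.symm (hne _ _))
  have h2 : ∀ i k : Fin n, (k : ℕ) = (i : ℕ) + 1 → e k + e (Fin.rev i) < 0 := fun i k hk =>
    lt_of_le_of_ne (ineq_two he hU hA hn (M_quad n hn) i k hk) (hne _ _)
  -- natural number indexing
  let E : ℕ → ℝ := fun k => if h : k < n then e ⟨k, h⟩ else 0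
  have hE : ∀ k (h : k < n), E k = e ⟨k, h⟩ := fun k h => dif_pos h
  have hEanti : ∀ a b, a ≤ b → b < n → E b ≤ E a := by
    intro a b hab hb
    rw [hE a (by omega), hE b hb]
    exact he hab
  have k1 : ∀ s, s < n → 0 < E s + E (n - 1 - s) := by
    intro s hs
    have := h1 ⟨s, hs⟩
    rw [hE s hs, hE (n - 1 - s) (by omega)]
    convert this using 3
    ext; simp [Fin.val_rev]; omega
  have k2 : ∀ s, s + 1 < n → E (s + 1) + E (n - 1 - s) < 0 := by
    intro s hs
    have := h2 ⟨s, by omega⟩ ⟨s + 1, hs⟩ rfl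
    rw [hE (s + 1) hs, hE (n - 1 - s) (by omega)]
    convert this using 3
    ext; simp [Fin.val_rev]; omega
  have kpos : ∀ s, 2 * s < n → 0 < E s := by
    intro s hs
    have a1 := k1 s (by omega)
    have a2 := hEanti s (n - 1 - s) (by omega) (by omega)
    linarith
  have kneg : ∀ s, 2 * s + 1 < n → E (n - 1 - s) < 0 := by
    intro s hs
    have a1 := k2 s (by omega)
    have a2 := hEanti (s + 1) (n - 1 - s) (by omega) (by omega)
    linarith
  -- the enumeration
  let g : Fin n → Fin n := fun k => if (k : ℕ) % 2 = 0 then ⟨(k : ℕ) / 2, by omega⟩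
    else ⟨n - 1 - (k : ℕ) / 2, by omega⟩
  have hg : Function.Injective g := by
    intro a b hab
    have ha := a.isLt
    have hb := b.isLt
    simp only [g] at hab
    ext
    split_ifs at hab with c1 c2 c2 <;> simp only [Fin.mk.injEq] at hab <;> omega
  have hgb : Function.Bijective g := Finite.injective_iff_bijective.1 hg
  have hlamE : ∀ k : Fin n, e (g k) = if (k : ℕ) % 2 = 0 then E ((k : ℕ) / 2)
      else E (n - 1 - (k : ℕ) / 2) := by
    intro k
    have := k.isLt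
    simp only [g]
    split_ifs with c
    · rw [hE _ (by omega)]
    · rw [hE _ (by omega)]
  refine ⟨fun k => e (g k), ?_, ?_, ?_⟩
  · rw [hchar]
    exact ((Equiv.ofBijective g hgb).prod_comp (fun i => (X - C (e i)))).symm
  · intro k
    have hk := k.isLt
    show 0 < (-1 : ℝ) ^ (k : ℕ) * e (g k)
    rw [hlamE]
    split_ifs with c
    · have : (-1 : ℝ) ^ (k : ℕ) = 1 := (Nat.even_iff.2 c).neg_one_pow
      rw [this, one_mul]
      exact kpos _ (by omega)
    · have : (-1 : ℝ) ^ (k : ℕ) = -1 := (Nat.odd_iff.2 (by omega)).neg_one_pow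
      rw [this]
      have := kneg ((k : ℕ) / 2) (by omega)
      linarith
  · intro i j hij
    have hi := i.isLt
    have hj := j.isLt
    have hij' : (i : ℕ) < (j : ℕ) := hij
    simp only [hlamE]
    have habs : ∀ k : Fin n, |if (k : ℕ) % 2 = 0 then E ((k : ℕ) / 2)
        else E (n - 1 - (k : ℕ) / 2)| = if (k : ℕ) % 2 = 0 then E ((k : ℕ) / 2)
        else - E (n - 1 - (k : ℕ) / 2) := by
      intro k
      have hk := k.isLt
      split_ifs with c
      · exact abs_of_pos (kpos _ (by omega))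
      · exact abs_of_neg (kneg _ (by omega))
    rw [habs, habs]
    by_cases ci : (i : ℕ) % 2 = 0
    · by_cases cj : (j : ℕ) % 2 = 0
      · rw [if_pos ci, if_pos cj]
        have a1 := k1 ((i : ℕ) / 2) (by omega)
        have a2 := k2 ((i : ℕ) / 2) (by omega)
        have a3 := hEanti ((i : ℕ) / 2 + 1) ((j : ℕ) / 2) (by omega) (by omega)
        linarith
      · rw [if_pos ci, if_neg cj]
        have a1 := k1 ((i : ℕ) / 2) (by omega)
        have a3 := hEanti (n - 1 - (j : ℕ) / 2) (n - 1 - (i : ℕ) / 2) (by omega) (by omega)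
        linarith
    · by_cases cj : (j : ℕ) % 2 = 0
      · rw [if_neg ci, if_pos cj]
        have a2 := k2 ((i : ℕ) / 2) (by omega)
        have a3 := hEanti ((i : ℕ) / 2 + 1) ((j : ℕ) / 2) (by omega) (by omega)
        linarith
      · rw [if_neg ci, if_neg cj]
        have a2 := k2 ((i : ℕ) / 2) (by omega)
        have a1 := k1 ((i : ℕ) / 2 + 1) (by omega)
        have a3 := hEanti (n - 1 - (j : ℕ) / 2) (n - 1 - ((i : ℕ) / 2 + 1)) (by omega) (by omega)
        linarith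

theorem no_pair_of_alternating (n : ℕ) (h : AlternatingSpectrum n) :
    ¬ ∃ r : ℝ, ((chi n).map (Int.castRingHom ℝ)).IsRoot r ∧
      ((chi n).map (Int.castRingHom ℝ)).IsRoot (-r) := by
  rintro ⟨r, h1, h2⟩
  obtain ⟨lam, hl, hs, ha⟩ := h
  rw [hl, IsRoot, eval_prod, Finset.prod_eq_zero_iff] at h1 h2
  obtain ⟨i, -, hi⟩ := h1
  obtain ⟨j, -, hj⟩ := h2
  simp only [eval_sub, eval_X, eval_C] at hi hj
  have hij : i = j := by
    rcases lt_trichotomy i j with c | c | c
    · have := ha i j c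
      rw [show lam j = - lam i by linarith, abs_neg] at this
      exact absurd this (lt_irrefl _)
    · exact c
    · have := ha j i c
      rw [show lam j = - lam i by linarith, abs_neg] at this
      exact absurd this (lt_irrefl _)
  subst hij
  have h0 : lam i = 0 := by linarith
  have := hs i
  rw [h0, mul_zero] at this
  exact lt_irrefl _ this

theorem trace_M (n : ℕ) (hn : 0 < n) : (M n).trace = 1 := by
  simp only [trace, diag_apply, M, of_apply]
  rw [Finset.sum_eq_single (⟨0, hn⟩ : Fin n)]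
  · norm_num
  · intro i _ hi
    rw [if_neg]
    intro hp
    have : (i : ℕ) ≠ 0 := fun h => hi (Fin.ext h)
    rcases hp.eq_two_or_odd' with h | h
    · omega
    · rcases h with ⟨c, hc⟩; omega
  · intro h; exact absurd (Finset.mem_univ _) h

theorem no_pair_of_irreducible (n : ℕ) (h : Irreducible ((chi n).map (Int.castRingHom ℚ))) :
    ¬ ∃ r : ℝ, ((chi n).map (Int.castRingHom ℝ)).IsRoot r ∧
      ((chi n).map (Int.castRingHom ℝ)).IsRoot (-r) := by
  rintro ⟨r, h1, h2⟩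
  set q : ℚ[X] := (chi n).map (Int.castRingHom ℚ) with hq
  have hmon : q.Monic := (charpoly_monic _).map _
  have hdeg : q.natDegree = n := by
    rw [hq, chi, (charpoly_monic (M n)).natDegree_map]
    simp [charpoly_natDegree_eq_dim]
  have hmap : q.map (algebraMap ℚ ℝ) = (chi n).map (Int.castRingHom ℝ) := by
    rw [hq, Polynomial.map_map]
    congr 1
  have hr : aeval r q = 0 := by
    rw [aeval_def, ← eval_map, hmap]; exact h1
  have hr' : aeval (-r) q = 0 := by
    rw [aeval_def, ← eval_map, hmap]; exact h2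
  have m1 := minpoly.eq_of_irreducible_of_monic h hr hmon
  have m2 := minpoly.eq_of_irreducible_of_monic h hr' hmon
  have m3 := minpoly.neg (A := ℚ) r
  rw [← m1, ← m2, hdeg] at m3
  have hn : 0 < n := by
    rcases Nat.eq_zero_or_pos n with h0 | h0
    · exfalso
      apply h.not_isUnit
      have : q.natDegree = 0 := by rw [hdeg, h0]
      rw [hmon.natDegree_eq_zero.1 this]
      exact isUnit_one
    · exact h0
  have hco : q.coeff (n - 1) = -1 := by
    have : Nonempty (Fin n) := ⟨⟨0, hn⟩⟩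
    have := trace_eq_neg_charpoly_coeff (M n)
    rw [trace_M n hn, Fintype.card_fin] at this
    rw [hq, coeff_map, chi]
    have h5 : (M n).charpoly.coeff (n - 1) = -1 := by linarith
    rw [h5]; simp
  have h4 := congrArg (fun P : ℚ[X] => P.coeff (n - 1)) m3
  have h6 : ((-1 : ℚ[X]) ^ n * q.comp (-X)).coeff (n - 1) = (-1) ^ n * ((-1) ^ (n - 1) * q.coeff (n - 1)) := by
    have h7 : (-1 : ℚ[X]) ^ n = C ((-1) ^ n) := by simp
    have h8 : (-X : ℚ[X]) = C (-1) * X := by simp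
    rw [h7, coeff_C_mul, h8, comp_C_mul_X_coeff]
    ring
  have h8 : (-1 : ℚ) ^ n * (-1) ^ (n - 1) = -1 := by
    rw [← pow_add]
    apply Odd.neg_one_pow
    exact ⟨n - 1, by omega⟩
  have h9 : (-1 : ℚ) = 1 := by
    have h10 : q.coeff (n - 1) = (-1) ^ n * ((-1) ^ (n - 1) * q.coeff (n - 1)) := by
      rw [← h6]; exact h4
    rw [hco] at h10
    linear_combination h10 - h8
  norm_num at h9

/-- (1) For every `n`, `M(n)` has alternating spectrum if and only if no real number `r` is such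
that `r` and `-r` are both eigenvalues of `M(n)`. (2) For every `n`, if `χ_n` is irreducible over
`ℚ` then `M(n)` has alternating spectrum. (3) Hence the conjecture that `χ_n` is irreducible over
`ℚ` and `M(n)` has alternating spectrum for every `n ≥ 24` is equivalent to its first half. -/
theorem result :
    (∀ n : ℕ, AlternatingSpectrum n ↔
      ¬ ∃ r : ℝ, ((chi n).map (Int.castRingHom ℝ)).IsRoot r ∧
        ((chi n).map (Int.castRingHom ℝ)).IsRoot (-r)) ∧
    (∀ n : ℕ, Irreducible ((chi n).map (Int.castRingHom ℚ)) → AlternatingSpectrum n) ∧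
    ((∀ n : ℕ, 24 ≤ n → Irreducible ((chi n).map (Int.castRingHom ℚ)) ∧ AlternatingSpectrum n) ↔
      ∀ n : ℕ, 24 ≤ n → Irreducible ((chi n).map (Int.castRingHom ℚ))) := by
  have h2 : ∀ n : ℕ, Irreducible ((chi n).map (Int.castRingHom ℚ)) → AlternatingSpectrum n :=
    fun n h => alternating_of_no_pair n (no_pair_of_irreducible n h)
  exact ⟨fun n => ⟨no_pair_of_alternating n, alternating_of_no_pair n⟩, h2,
    ⟨fun h n hn => (h n hn).1, fun h n hn => ⟨h n hn, h2 n (h n hn)⟩⟩⟩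

end Pool.Agent.Results.MP_a21be6_nt.AlternatingSpectrum
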